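import Pool.Agent.Q298.FC.Lists
import Pool.Agent.Y315.FC.Orb

/-!
# Integrals of trigonometric polynomials against measures invariant under `×p` and `×q`

A version of `Pool.Agent.Y315.FC.Int` for all `p`, `q` and two coefficients.
-/

set_option autoImplicit false

namespace Pool.Agent.Q298.FC

open MeasureTheory Complex Polynomial
open Pool.Agent.Y315.FC (co co_mul four_pow norm_four int_c)

/-- `n` divided by (at most `f`) factors `p` and `q` -/
def core (p q : ℕ) : ℕ → ℕ → ℕ
  | 0, n => n
  | f + 1, n =>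
    if n % p = 0 then core p q f (n / p) else if n % q = 0 then core p q f (n / q) else n

variable {p q d : ℕ}

theorem core_le (f n : ℕ) : core p q f n ≤ n := by
  induction f generalizing n with
  | zero => simp [core]
  | succ f ih =>
    simp only [core]
    split_ifs
    · exact (ih _).trans (Nat.div_le_self _ _)
    · exact (ih _).trans (Nat.div_le_self _ _)
    · exact le_refl _

theorem core_eq {c : ℕ → ℂ} (h2 : ∀ n, c (p * n) = c n) (h3 : ∀ n, c (q * n) = c n) (f n : ℕ) :
    c (core p q f n) = c n := by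
  induction f generalizing n with
  | zero => simp [core]
  | succ f ih =>
    simp only [core]
    split_ifs with a b
    · rw [ih, ← h2 (n / p), Nat.mul_div_cancel' (Nat.dvd_of_mod_eq_zero a)]
    · rw [ih, ← h3 (n / q), Nat.mul_div_cancel' (Nat.dvd_of_mod_eq_zero b)]
    · rfl

/-- sum of the coefficients with indices in the class of `m` -/
def cs (p q : ℕ) (l : List (ℤ × ℤ)) (i m : ℕ) : ℤ × ℤ :=
  match l with
  | [] => (0, 0)
  | a :: l => if core p q 8 i = m then addp a (cs p q l (i + 1) m) else cs p q l (i + 1) m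

/-- `∑ φ (l_j) c (i + j)` -/
noncomputable def Lam (d : ℕ) (c : ℕ → ℂ) : List (ℤ × ℤ) → ℕ → ℂ
  | [], _ => 0
  | a :: l, i => ph d a * c i + Lam d c l (i + 1)

theorem Lam_eq {c : ℕ → ℂ} (h2 : ∀ n, c (p * n) = c n) (h3 : ∀ n, c (q * n) = c n) (W : ℕ)
    (l : List (ℤ × ℤ)) (i : ℕ) (hi : i + l.length ≤ W) :
    Lam d c l i = ∑ m ∈ Finset.range W, ph d (cs p q l i m) * c m := by
  induction l generalizing i with
  | nil => simp [Lam, cs, ph_zero]
  | cons a l ih =>
    simp only [List.length_cons] at hi
    simp only [Lam, cs]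
    rw [ih (i + 1) (by omega)]
    have h : ∀ m, ph d (if core p q 8 i = m then addp a (cs p q l (i + 1) m) else
        cs p q l (i + 1) m) * c m =
        (if core p q 8 i = m then ph d a * c m else 0) + ph d (cs p q l (i + 1) m) * c m := by
      intro m
      split_ifs
      · rw [ph_add]; ring
      · ring
    rw [Finset.sum_congr rfl fun m _ => h m, Finset.sum_add_distrib]
    congr 1
    rw [Finset.sum_ite_eq, if_pos, core_eq h2 h3]
    have := core_le (p := p) (q := q) 8 i
    simp only [Finset.mem_range]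
    omega

/-- check of the class sums: `t` for the class of `i`, `s` for the class of `k` -/
def chk (p q : ℕ) (P : List (ℤ × ℤ)) (i : ℕ) (t : ℤ × ℤ) (k : ℕ) (s : ℤ × ℤ) (W : ℕ) : Bool :=
  decide (1 + P.length ≤ W) && decide (i < W) && decide (k < W) && decide (i ≠ k) &&
  (List.range W).all fun m =>
    decide (cs p q P 1 m = if m = i then t else if m = k then s else (0, 0))

theorem Lam_chk {c : ℕ → ℂ} (h2 : ∀ n, c (p * n) = c n) (h3 : ∀ n, c (q * n) = c n) {W : ℕ}
    {P : List (ℤ × ℤ)} {i k : ℕ} {t s : ℤ × ℤ} (h : chk p q P i t k s W = true) :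
    Lam d c P 1 = ph d t * c i + ph d s * c k := by
  unfold chk at h
  simp only [Bool.and_eq_true, decide_eq_true_eq] at h
  obtain ⟨⟨⟨⟨hl, hi⟩, hk⟩, hik⟩, h⟩ := h
  rw [Lam_eq h2 h3 W P 1 hl]
  rw [List.all_eq_true] at h
  have h' : ∀ m ∈ Finset.range W, ph d (cs p q P 1 m) * c m =
      (if m = i then ph d t * c i else 0) + if m = k then ph d s * c k else 0 := by
    intro m hm
    have := h m (List.mem_range.mpr (Finset.mem_range.mp hm))
    rw [decide_eq_true_eq] at this
    rw [this]
    by_cases e : m = i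
    · subst e
      rw [if_pos rfl, if_pos rfl, if_neg hik, add_zero]
    · rw [if_neg e, if_neg e, zero_add]
      by_cases e' : m = k
      · rw [if_pos e', if_pos e', e']
      · rw [if_neg e', if_neg e', ph_zero, zero_mul]
  rw [Finset.sum_congr rfl h', Finset.sum_add_distrib, Finset.sum_ite_eq', Finset.sum_ite_eq',
    if_pos (Finset.mem_range.mpr hi), if_pos (Finset.mem_range.mpr hk)]

theorem cont_ev (d : ℕ) (l : List (ℤ × ℤ)) :
    Continuous fun x : UnitAddCircle => ev d (fourier 1 x : ℂ) l := by
  induction l with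
  | nil => simp only [ev]; exact continuous_const
  | cons a l ih => simp only [ev]; exact continuous_const.add ((map_continuous _).mul ih)

theorem int_ev (μ : Measure UnitAddCircle) [IsFiniteMeasure μ] (l : List (ℤ × ℤ)) (i : ℕ) :
    ∫ x, (fourier 1 x : ℂ) ^ i * ev d (fourier 1 x : ℂ) l ∂μ = Lam d (co μ) l i := by
  induction l generalizing i with
  | nil => simp [ev, Lam]
  | cons a l ih =>
    simp only [ev, Lam]
    rw [← ih (i + 1)]
    have h : ∀ x : UnitAddCircle, (fourier 1 x : ℂ) ^ i * (ph d a + (fourier 1 x : ℂ) *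
        ev d (fourier 1 x : ℂ) l) = ph d a * (fourier (i : ℤ) x : ℂ) +
        (fourier 1 x : ℂ) ^ (i + 1) * ev d (fourier 1 x : ℂ) l := by
      intro x
      rw [four_pow]
      ring
    rw [integral_congr_ae (Filter.Eventually.of_forall h), integral_add, integral_const_mul]
    · rfl
    · exact int_c (continuous_const.mul (map_continuous _))
    · exact int_c (((map_continuous _).pow _).mul (cont_ev d l))

theorem cont_tv (d : ℕ) (a : ℤ) (l : List (ℤ × ℤ)) :
    Continuous fun x : UnitAddCircle => tv d (fourier 1 x : ℂ) a l := by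
  unfold tv
  exact continuous_const.add (continuous_const.mul
    (Complex.continuous_re.comp ((map_continuous _).mul (cont_ev d l))))

theorem int_tv (μ : Measure UnitAddCircle) [IsProbabilityMeasure μ] (a : ℤ)
    (l : List (ℤ × ℤ)) :
    ∫ x, tv d (fourier 1 x : ℂ) a l ∂μ = a + 2 * (Lam d (co μ) l 1).re := by
  unfold tv
  have hc : Continuous fun x : UnitAddCircle => (fourier 1 x : ℂ) * ev d (fourier 1 x : ℂ) l :=
    (map_continuous _).mul (cont_ev d l)
  have hi := int_c (μ := μ) hc
  have hre : Integrable (fun x : UnitAddCircle =>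
      ((fourier 1 x : ℂ) * ev d (fourier 1 x : ℂ) l).re) μ := hi.re
  rw [integral_add (integrable_const _) (hre.const_mul 2), integral_const_mul]
  have h1 : ∫ x, ((fourier 1 x : ℂ) * ev d (fourier 1 x : ℂ) l).re ∂μ =
      (∫ x, (fourier 1 x : ℂ) * ev d (fourier 1 x : ℂ) l ∂μ).re := integral_re hi
  rw [h1]
  have h2 := int_ev (d := d) μ l 1
  simp only [pow_one] at h2
  rw [h2]
  simp

/-- the polynomial -/
noncomputable def pol (d : ℕ) : List (ℤ × ℤ) → ℂ[X]
  | [] => 0
  | a :: l => C (ph d a) + X * pol d l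

theorem pol_eval (z : ℂ) (l : List (ℤ × ℤ)) : (pol d l).eval z = ev d z l := by
  induction l with
  | nil => simp [pol, ev]
  | cons a l ih => simp [pol, ev, ih]

theorem pol_ne {l : List (ℤ × ℤ)} (h : ∃ a ∈ l, a.1 ≠ 0) : pol d l ≠ 0 := by
  induction l with
  | nil => simp at h
  | cons a l ih =>
    intro h0
    simp only [pol] at h0
    have h1 : ph d a = 0 := by
      have := congrArg (Polynomial.eval 0) h0
      simpa using this
    have h2 : pol d l = 0 := by
      rw [h1, map_zero, zero_add] at h0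
      rcases mul_eq_zero.mp h0 with h3 | h3
      · exact absurd h3 X_ne_zero
      · exact h3
    obtain ⟨b, hb, hb1⟩ := h
    rcases List.mem_cons.mp hb with rfl | hb
    · have h4 := congrArg Complex.re h1
      simp only [ph, Complex.add_re, Complex.intCast_re, Complex.mul_re, Complex.ofReal_re,
        Complex.ofReal_im, Complex.I_re, Complex.I_im, Complex.intCast_im, Complex.mul_im,
        Complex.zero_re] at h4
      have h5 : (b.1 : ℝ) = 0 := by linarith
      exact hb1 (by exact_mod_cast h5)
    · exact ih ⟨b, hb, hb1⟩ h2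

theorem zeros_finite {l : List (ℤ × ℤ)} (h : ∃ a ∈ l, a.1 ≠ 0) :
    {x : UnitAddCircle | ev d (fourier 1 x : ℂ) l = 0}.Finite := by
  have h1 : ((pol d l).roots.toFinset : Set ℂ).Finite := Finset.finite_toSet _
  refine Set.Finite.subset (h1.preimage (f := fun x : UnitAddCircle => (fourier 1 x : ℂ)) ?_) ?_
  · intro x _ y _ hxy
    simp only [fourier_one] at hxy
    exact AddCircle.injective_toCircle one_ne_zero (Circle.coe_injective hxy)
  · intro x hx
    simp only [Set.mem_preimage, Finset.mem_coe, Multiset.mem_toFinset]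
    rw [mem_roots (pol_ne h), IsRoot.def, pol_eval]
    exact hx

/-- **The inequality for two coefficients given by a certificate**; it is strict if the measure has
no atoms. -/
theorem Cert.ineq {C : Cert} {r W i k : ℕ} {t s : ℤ × ℤ} (hC : C.ok d r = true)
    (hG : ∃ a ∈ C.G, a.1 ≠ 0) (hc : chk p q C.P i t k s W = true)
    (μ : Measure UnitAddCircle) [IsProbabilityMeasure μ]
    (h2 : MeasurePreserving (fun x : UnitAddCircle => p • x) μ μ)
    (h3 : MeasurePreserving (fun x : UnitAddCircle => q • x) μ μ) :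
    0 ≤ C.p0 + 2 * (ph d t * co μ i + ph d s * co μ k).re ∧
      ((∀ x, μ {x} = 0) → 0 < C.p0 + 2 * (ph d t * co μ i + ph d s * co μ k).re) := by
  rw [← Lam_chk (fun n => co_mul h2 n) (fun n => co_mul h3 n) hc, ← int_tv]
  have hnn : ∀ x : UnitAddCircle, 0 ≤ tv d (fourier 1 x : ℂ) C.p0 C.P := fun x =>
    (Cert.sound hC (norm_four x)).1
  have h0 : 0 ≤ ∫ x, tv d (fourier 1 x : ℂ) C.p0 C.P ∂μ := integral_nonneg hnn
  refine ⟨h0, fun hat => lt_of_le_of_ne h0 fun he => ?_⟩
  have hint : Integrable (fun x : UnitAddCircle => tv d (fourier 1 x : ℂ) C.p0 C.P) μ :=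
    (cont_tv d C.p0 C.P).integrable_of_hasCompactSupport
      (HasCompactSupport.of_compactSpace _)
  have h5 := (integral_eq_zero_iff_of_nonneg hnn hint).mp he.symm
  have h6 : ∀ᵐ x ∂μ, x ∈ {x : UnitAddCircle | ev d (fourier 1 x : ℂ) C.G = 0} := by
    filter_upwards [h5] with x hx
    exact (Cert.sound hC (norm_four x)).2 hx
  have hfin := zeros_finite (d := d) hG
  have h7 : μ {x : UnitAddCircle | ev d (fourier 1 x : ℂ) C.G = 0} = 0 := by
    rw [← Set.biUnion_of_singleton {x : UnitAddCircle | ev d (fourier 1 x : ℂ) C.G = 0}]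
    exact (measure_biUnion_null_iff hfin.countable).mpr fun x _ => hat x
  have h8 : μ Set.univ = 0 := by
    have h9 : μ {x : UnitAddCircle | ev d (fourier 1 x : ℂ) C.G = 0}ᶜ = 0 := h6
    have h10 := measure_union_le (μ := μ) {x : UnitAddCircle | ev d (fourier 1 x : ℂ) C.G = 0}
      {x : UnitAddCircle | ev d (fourier 1 x : ℂ) C.G = 0}ᶜ
    rw [Set.union_compl_self, h7, h9, add_zero] at h10
    exact le_antisymm h10 bot_le
  rw [measure_univ] at h8
  exact one_ne_zero h8

end Pool.Agent.Q298.FC
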