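import Pool.Agent.Q298.FC.Two3

/-!
# `×2`, `×3`: the two polygons
-/

set_option autoImplicit false

namespace Pool.Agent.Q298.FC

open MeasureTheory Complex
open Pool.Agent.Y315.FC (co orb)

theorem v17_5 : ((-(1 / 4) : ℝ), (-(1 / 4) : ℝ)) ∈ JR 2 3 1 7 :=
  ⟨_, inv5, by rw [c5_1, c5_7]⟩
theorem v17_35 : ((1 / 24 : ℝ), (-(1 / 4) : ℝ)) ∈ JR 2 3 1 7 :=
  ⟨_, inv35, by rw [c35_1, c35_7]⟩
theorem v17_7 : ((-(1 / 6) : ℝ), (1 : ℝ)) ∈ JR 2 3 1 7 :=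
  ⟨_, inv7, by rw [c7_1, c7_7]⟩
theorem v57_25 : ((-(1 / 4) : ℝ), (0 : ℝ)) ∈ JR 2 3 5 7 :=
  ⟨_, inv25, by rw [c25_5, c25_7]⟩
theorem v57_35 : ((-(1 / 6) : ℝ), (-(1 / 4) : ℝ)) ∈ JR 2 3 5 7 :=
  ⟨_, inv35, by rw [c35_5, c35_7]⟩
theorem v57_5 : ((1 : ℝ), (-(1 / 4) : ℝ)) ∈ JR 2 3 5 7 :=
  ⟨_, inv5, by rw [c5_5, c5_7]⟩
theorem v57_7 : ((-(1 / 6) : ℝ), (1 : ℝ)) ∈ JR 2 3 5 7 :=
  ⟨_, inv7, by rw [c7_5, c7_7]⟩

theorem jr17 : JR 2 3 1 7 = {v : ℝ × ℝ | -(1 / 4) ≤ v.2 ∧ v.2 ≤ 1 ∧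
    30 * v.1 - 23 * v.2 ≤ 7 ∧ v.2 - 15 * v.1 ≤ 7 / 2} := by
  apply Set.Subset.antisymm
  · rintro _ ⟨μ, h, rfl⟩
    exact ⟨(low7 h).1, (up7 h).1, (ineqA h).1, (ineqB h).1⟩
  · rintro ⟨x, y⟩ ⟨h1, h2, h3, h4⟩
    simp only at h1 h2 h3 h4
    set t : ℝ := (y + 1 / 4) * (4 / 5) with ht
    have ht0 : 0 ≤ t := by rw [ht]; linarith
    have ht1 : t ≤ 1 := by rw [ht]; linarith
    have hy : y = (1 - t) * (-(1 / 4)) + t * 1 := by rw [ht]; ring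
    have hl : ((1 - t) * (-(1 / 4)) + t * (-(1 / 6)), y) ∈ JR 2 3 1 7 :=
      JR_mix v17_5 v17_7 ht0 ht1 rfl hy
    have hr : ((1 - t) * (1 / 24) + t * 1, y) ∈ JR 2 3 1 7 :=
      JR_mix v17_35 (one_mem 1 7) ht0 ht1 rfl hy
    set w : ℝ := 7 / 24 + t * (21 / 24) with hw
    have hw0 : 0 < w := by rw [hw]; linarith
    refine JR_mix hl hr (t := (x - ((1 - t) * (-(1 / 4)) + t * (-(1 / 6)))) / w)
      (div_nonneg (by rw [ht]; linarith) hw0.le)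
      ((div_le_one hw0).mpr (by rw [hw, ht]; linarith)) ?_ (by ring)
    have e : (x - ((1 - t) * (-(1 / 4)) + t * (-(1 / 6)))) / w * w =
        x - ((1 - t) * (-(1 / 4)) + t * (-(1 / 6))) := div_mul_cancel₀ _ hw0.ne'
    rw [hw] at e ⊢
    linear_combination -e

theorem jr57 : JR 2 3 5 7 = {v : ℝ × ℝ | v.1 ≤ 1 ∧ -(1 / 4) ≤ v.2 ∧ v.2 ≤ 1 ∧
    -(3 / 4) ≤ 3 * v.1 + v.2 ∧ -3 ≤ 12 * v.1 - v.2} := by
  apply Set.Subset.antisymm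
  · rintro _ ⟨μ, h, rfl⟩
    exact ⟨(up5 h).1, (low7 h).1, (up7 h).1, by have := (ineqC h).1; simp only; linarith,
      (ineqD h).1⟩
  · rintro ⟨x, y⟩ ⟨h0, h1, h2, h3, h4⟩
    simp only at h0 h1 h2 h3 h4
    have hone := one_mem 5 7
    have hr : ((1 : ℝ), y) ∈ JR 2 3 5 7 :=
      JR_mix v57_5 hone (t := (y + 1 / 4) * (4 / 5)) (by linarith) (by linarith) (by ring)
        (by ring)
    rcases le_total 0 y with hy | hy
    · have hl : ((1 - y) * (-(1 / 4)) + y * (-(1 / 6)), y) ∈ JR 2 3 5 7 :=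
        JR_mix v57_25 v57_7 hy h2 rfl (by ring)
      set w : ℝ := 5 / 4 - y / 12 with hw
      have hw0 : 0 < w := by rw [hw]; linarith
      refine JR_mix hl hr (t := (x - ((1 - y) * (-(1 / 4)) + y * (-(1 / 6)))) / w)
        (div_nonneg (by linarith) hw0.le)
        ((div_le_one hw0).mpr (by rw [hw]; linarith)) ?_ (by ring)
      have e : (x - ((1 - y) * (-(1 / 4)) + y * (-(1 / 6)))) / w * w =
          x - ((1 - y) * (-(1 / 4)) + y * (-(1 / 6))) := div_mul_cancel₀ _ hw0.ne'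
      rw [hw] at e ⊢
      linear_combination -e
    · have hl : ((1 - (1 + 4 * y)) * (-(1 / 6)) + (1 + 4 * y) * (-(1 / 4)), y) ∈ JR 2 3 5 7 :=
        JR_mix v57_35 v57_25 (by linarith) (by linarith) rfl (by ring)
      set w : ℝ := 5 / 4 + y / 3 with hw
      have hw0 : 0 < w := by rw [hw]; linarith
      refine JR_mix hl hr
        (t := (x - ((1 - (1 + 4 * y)) * (-(1 / 6)) + (1 + 4 * y) * (-(1 / 4)))) / w)
        (div_nonneg (by linarith) hw0.le)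
        ((div_le_one hw0).mpr (by rw [hw]; linarith)) ?_ (by ring)
      have e : (x - ((1 - (1 + 4 * y)) * (-(1 / 6)) + (1 + 4 * y) * (-(1 / 4)))) / w * w =
          x - ((1 - (1 + 4 * y)) * (-(1 / 6)) + (1 + 4 * y) * (-(1 / 4))) :=
        div_mul_cancel₀ _ hw0.ne'
      rw [hw] at e ⊢
      linear_combination -e

end Pool.Agent.Q298.FC
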