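import Mathlib

/-!
# Laurent polynomials over `ℤ[√-d]` as lists, evaluated on the unit circle

A version of `Pool.Agent.Y315.FC.Lists` (`d = 23`) for all `d`, with strict certificates.
-/

set_option autoImplicit false

namespace Pool.Agent.Q298.FC

open Complex

/-- product in `ℤ[√-d]` -/
def mulp (d : ℕ) (a b : ℤ × ℤ) : ℤ × ℤ := (a.1 * b.1 - d * (a.2 * b.2), a.1 * b.2 + a.2 * b.1)

def addp (a b : ℤ × ℤ) : ℤ × ℤ := (a.1 + b.1, a.2 + b.2)

def cjp (a : ℤ × ℤ) : ℤ × ℤ := (a.1, -a.2)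

def addL : List (ℤ × ℤ) → List (ℤ × ℤ) → List (ℤ × ℤ)
  | [], l => l
  | a :: l, [] => a :: l
  | a :: l, b :: m => addp a b :: addL l m

def smulL (d : ℕ) (a : ℤ × ℤ) : List (ℤ × ℤ) → List (ℤ × ℤ)
  | [] => []
  | b :: l => mulp d a b :: smulL d a l

def mulL (d : ℕ) : List (ℤ × ℤ) → List (ℤ × ℤ) → List (ℤ × ℤ)
  | [], _ => []
  | a :: l, m => addL (smulL d a m) ((0, 0) :: mulL d l m)

/-- the coefficients of `z ^ n * conj (p z)` on the unit circle -/
def rv (l : List (ℤ × ℤ)) : List (ℤ × ℤ) := (l.map cjp).reverse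

/-- the complex number `a + b √-d` -/
noncomputable def ph (d : ℕ) (a : ℤ × ℤ) : ℂ :=
  (a.1 : ℂ) + (a.2 : ℂ) * ((Real.sqrt d : ℂ) * I)

noncomputable def ev (d : ℕ) (z : ℂ) : List (ℤ × ℤ) → ℂ
  | [] => 0
  | a :: l => ph d a + z * ev d z l

variable {d : ℕ}

theorem sqd (d : ℕ) : ((Real.sqrt d : ℂ) * I) * ((Real.sqrt d : ℂ) * I) = -(d : ℂ) := by
  have h : (Real.sqrt d : ℂ) * (Real.sqrt d : ℂ) = d := by
    rw [← Complex.ofReal_mul, Real.mul_self_sqrt (by positivity)]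
    norm_num
  calc ((Real.sqrt d : ℂ) * I) * ((Real.sqrt d : ℂ) * I)
      = ((Real.sqrt d : ℂ) * (Real.sqrt d : ℂ)) * (I * I) := by ring
    _ = -(d : ℂ) := by rw [h, Complex.I_mul_I]; ring

theorem ph_mul (a b : ℤ × ℤ) : ph d (mulp d a b) = ph d a * ph d b := by
  unfold ph mulp
  push_cast
  linear_combination (-(a.2 : ℂ) * b.2) * sqd d

theorem ph_add (a b : ℤ × ℤ) : ph d (addp a b) = ph d a + ph d b := by
  unfold ph addp
  push_cast
  ring

theorem ph_cj (a : ℤ × ℤ) : ph d (cjp a) = (starRingEnd ℂ) (ph d a) := by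
  unfold ph cjp
  simp only [map_add, map_mul, Complex.conj_I, Complex.conj_ofReal, map_intCast]
  push_cast
  ring

theorem ph_zero : ph d (0, 0) = 0 := by simp [ph]

theorem ev_add (z : ℂ) (l m : List (ℤ × ℤ)) : ev d z (addL l m) = ev d z l + ev d z m := by
  induction l generalizing m with
  | nil => simp [addL, ev]
  | cons a l ih =>
    cases m with
    | nil => simp [addL, ev]
    | cons b m => simp only [addL, ev, ih, ph_add]; ring

theorem ev_smul (z : ℂ) (a : ℤ × ℤ) (l : List (ℤ × ℤ)) :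
    ev d z (smulL d a l) = ph d a * ev d z l := by
  induction l with
  | nil => simp [smulL, ev]
  | cons b l ih => simp only [smulL, ev, ih, ph_mul]; ring

theorem ev_mul (z : ℂ) (l m : List (ℤ × ℤ)) : ev d z (mulL d l m) = ev d z l * ev d z m := by
  induction l with
  | nil => simp [mulL, ev]
  | cons a l ih => simp only [mulL, ev, ev_add, ev_smul, ih, ph_zero]; ring

theorem ev_append (z : ℂ) (l m : List (ℤ × ℤ)) :
    ev d z (l ++ m) = ev d z l + z ^ l.length * ev d z m := by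
  induction l with
  | nil => simp [ev]
  | cons a l ih => simp only [List.cons_append, ev, ih, List.length_cons]; ring

theorem ev_rv {z : ℂ} (hz : z * (starRingEnd ℂ) z = 1) (l : List (ℤ × ℤ)) :
    z * ev d z (rv l) = z ^ l.length * (starRingEnd ℂ) (ev d z l) := by
  induction l with
  | nil => simp [rv, ev]
  | cons a l ih =>
    have h1 : rv (a :: l) = rv l ++ [cjp a] := by simp [rv]
    have h2 : (rv l).length = l.length := by simp [rv]
    rw [h1, ev_append, h2]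
    simp only [ev, List.length_cons, map_add, map_mul, mul_zero, add_zero, ph_cj]
    rw [mul_add, ih]
    have h3 : z ^ (l.length + 1) * ((starRingEnd ℂ) z * (starRingEnd ℂ) (ev d z l)) =
        z ^ l.length * (starRingEnd ℂ) (ev d z l) := by
      rw [pow_succ]
      calc z ^ l.length * z * ((starRingEnd ℂ) z * (starRingEnd ℂ) (ev d z l))
          = z ^ l.length * (z * (starRingEnd ℂ) z) * (starRingEnd ℂ) (ev d z l) := by ring
        _ = _ := by rw [hz]; ring
    rw [mul_add, h3]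
    ring

/-- the value of the real trigonometric polynomial with coefficients `a, l_1, l_2, …` -/
noncomputable def tv (d : ℕ) (z : ℂ) (a : ℤ) (l : List (ℤ × ℤ)) : ℝ :=
  a + 2 * (z * ev d z l).re

/-- the list of all the coefficients, from `-n` to `n` -/
def full (a : ℤ) (l : List (ℤ × ℤ)) : List (ℤ × ℤ) := rv l ++ (a, 0) :: l

theorem ev_full {z : ℂ} (hz : z * (starRingEnd ℂ) z = 1) (a : ℤ) (l : List (ℤ × ℤ)) :
    ev d z (full a l) = z ^ l.length * (tv d z a l : ℂ) := by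
  have hz0 : z ≠ 0 := by
    rintro rfl
    simp at hz
  have h2 : (rv l).length = l.length := by simp [rv]
  have h1 : z * ev d z (full a l) = z * (z ^ l.length * (tv d z a l : ℂ)) := by
    unfold full
    rw [ev_append, h2, mul_add, ev_rv hz]
    simp only [ev]
    unfold tv
    have h3 : ((2 * (z * ev d z l).re : ℝ) : ℂ) =
        z * ev d z l + (starRingEnd ℂ) (z * ev d z l) := by
      rw [Complex.add_conj]
    push_cast at h3 ⊢
    rw [h3]
    have h4 : ph d (a, 0) = a := by simp [ph]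
    rw [h4, map_mul]
    have h5 : z * (z ^ l.length * ((a : ℂ) + (z * ev d z l + (starRingEnd ℂ) z *
        (starRingEnd ℂ) (ev d z l)))) = z * (z ^ l.length * ((a : ℂ) + z * ev d z l)) +
        (z * (starRingEnd ℂ) z) * (z ^ l.length * (starRingEnd ℂ) (ev d z l)) := by ring
    rw [h5, hz]
    ring
  exact mul_left_cancel₀ hz0 h1

/-- bound of the coefficients, `r ≥ √d` -/
def l1 (r : ℕ) : List (ℤ × ℤ) → ℤ
  | [] => 0
  | a :: l => |a.1| + r * |a.2| + l1 r l

theorem norm_ph {r : ℕ} (hr : d ≤ r * r) (a : ℤ × ℤ) :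
    ‖ph d a‖ ≤ ((|a.1| + r * |a.2| : ℤ) : ℝ) := by
  unfold ph
  have h5 : Real.sqrt d ≤ r := by
    rw [Real.sqrt_le_left (by positivity)]
    have : (d : ℝ) ≤ (r : ℝ) * r := by exact_mod_cast hr
    nlinarith
  calc ‖(a.1 : ℂ) + (a.2 : ℂ) * ((Real.sqrt d : ℂ) * I)‖
      ≤ ‖(a.1 : ℂ)‖ + ‖(a.2 : ℂ) * ((Real.sqrt d : ℂ) * I)‖ := norm_add_le _ _
    _ = |(a.1 : ℝ)| + |(a.2 : ℝ)| * Real.sqrt d := by
        rw [norm_mul, norm_mul, Complex.norm_I, mul_one, Complex.norm_intCast,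
          Complex.norm_intCast, Complex.norm_real, Real.norm_of_nonneg (Real.sqrt_nonneg _)]
    _ ≤ |(a.1 : ℝ)| + |(a.2 : ℝ)| * r := by gcongr
    _ = ((|a.1| + r * |a.2| : ℤ) : ℝ) := by push_cast; ring

theorem norm_ev {r : ℕ} (hr : d ≤ r * r) {z : ℂ} (hz : ‖z‖ = 1) (l : List (ℤ × ℤ)) :
    ‖ev d z l‖ ≤ (l1 r l : ℝ) := by
  induction l with
  | nil => simp [ev, l1]
  | cons a l ih =>
    calc ‖ev d z (a :: l)‖ ≤ ‖ph d a‖ + ‖z * ev d z l‖ := norm_add_le _ _
      _ ≤ ((|a.1| + r * |a.2| : ℤ) : ℝ) + l1 r l := by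
          rw [norm_mul, hz, one_mul]
          exact add_le_add (norm_ph hr a) ih
      _ = (l1 r (a :: l) : ℝ) := by simp only [l1]; push_cast; ring

theorem tv_pos {r : ℕ} (hr : d ≤ r * r) {z : ℂ} (hz : ‖z‖ = 1) {a : ℤ} {l : List (ℤ × ℤ)}
    (h : 2 * l1 r l < a) : 0 < tv d z a l := by
  unfold tv
  have h1 : |(z * ev d z l).re| ≤ (l1 r l : ℝ) := by
    refine (Complex.abs_re_le_norm _).trans ?_
    rw [norm_mul, hz, one_mul]
    exact norm_ev hr hz l
  have h2 : ((2 * l1 r l : ℤ) : ℝ) < a := by exact_mod_cast h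
  push_cast at h2
  have h3 := (abs_le.mp h1).1
  linarith

/-- the data of a certificate -/
structure Cert where
  L : ℤ
  M : ℤ
  p0 : ℤ
  e0 : ℤ
  G : List (ℤ × ℤ)
  S : List (ℤ × ℤ)
  E : List (ℤ × ℤ)
  P : List (ℤ × ℤ)

/-- the check of a certificate -/
def Cert.ok (d r : ℕ) (C : Cert) : Bool :=
  decide (d ≤ r * r) && decide (0 < C.M) && decide (0 ≤ C.L) && decide (2 * l1 r C.E < C.e0) &&
  decide (C.P.length + 2 = C.G.length + C.S.length) && decide (1 ≤ C.G.length) &&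
  decide (C.E.length + 1 = C.S.length) &&
  decide (mulL d (mulL d C.G (rv C.G)) (addL (smulL d (C.L, 0) (mulL d C.S (rv C.S)))
    (full C.e0 C.E)) = smulL d (C.M, 0) (full C.p0 C.P))

/-- **Nonnegativity certificate.** -/
theorem Cert.sound {r : ℕ} {C : Cert} (hC : C.ok d r = true) {z : ℂ} (hz : ‖z‖ = 1) :
    0 ≤ tv d z C.p0 C.P ∧ (tv d z C.p0 C.P = 0 → ev d z C.G = 0) := by
  unfold Cert.ok at hC
  simp only [Bool.and_eq_true, decide_eq_true_eq] at hC
  obtain ⟨⟨⟨⟨⟨⟨⟨hr, hM⟩, hL⟩, hE⟩, hP⟩, hG1⟩, hEl⟩, hid⟩ := hC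
  obtain ⟨dg, hG⟩ : ∃ dg, C.G.length = dg + 1 := ⟨C.G.length - 1, by omega⟩
  obtain ⟨ds, hS⟩ : ∃ ds, C.S.length = ds + 1 := ⟨C.E.length, by omega⟩
  have hEl' : C.E.length = ds := by omega
  have hPl : C.P.length = dg + ds := by omega
  have hz1 : z * (starRingEnd ℂ) z = 1 := by
    rw [Complex.mul_conj, Complex.normSq_eq_norm_sq, hz]
    norm_num
  have hz0 : z ≠ 0 := by
    rintro rfl
    simp at hz
  have key := congrArg (ev d z) hid
  rw [ev_mul, ev_mul, ev_add, ev_smul, ev_mul, ev_smul, ev_full hz1, ev_full hz1] at key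
  have hr' : ∀ (l : List (ℤ × ℤ)) (k : ℕ), l.length = k + 1 →
      ev d z (rv l) = z ^ k * (starRingEnd ℂ) (ev d z l) := by
    intro l k hl
    have := ev_rv (d := d) hz1 l
    rw [hl, pow_succ] at this
    have h2 : z * ev d z (rv l) = z * (z ^ k * (starRingEnd ℂ) (ev d z l)) := by
      rw [this]; ring
    exact mul_left_cancel₀ hz0 h2
  rw [hr' C.G dg hG, hr' C.S ds hS, hPl, hEl'] at key
  have hLr : ph d (C.L, 0) = (C.L : ℂ) := by simp [ph]
  have hMr : ph d (C.M, 0) = (C.M : ℂ) := by simp [ph]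
  rw [hLr, hMr] at key
  have k2 : z ^ (dg + ds) * (((C.M : ℝ) * tv d z C.p0 C.P : ℝ) : ℂ) = z ^ (dg + ds) *
      (((Complex.normSq (ev d z C.G)) * (C.L * Complex.normSq (ev d z C.S) +
        tv d z C.e0 C.E) : ℝ) : ℂ) := by
    push_cast
    rw [← Complex.mul_conj, ← Complex.mul_conj]
    have e1 : z ^ (dg + ds) * ((C.M : ℂ) * (tv d z C.p0 C.P : ℂ)) =
        C.M * (z ^ (dg + ds) * (tv d z C.p0 C.P : ℂ)) := by ring
    rw [e1, ← key, pow_add]
    ring
  have k3 := mul_left_cancel₀ (pow_ne_zero _ hz0) k2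
  have k4 : (C.M : ℝ) * tv d z C.p0 C.P =
      (Complex.normSq (ev d z C.G)) * (C.L * Complex.normSq (ev d z C.S) +
        tv d z C.e0 C.E) := by
    exact_mod_cast k3
  have hT := tv_pos hr hz hE
  have hMr' : (0 : ℝ) < C.M := by exact_mod_cast hM
  have hLr' : (0 : ℝ) ≤ C.L := by exact_mod_cast hL
  have h6 : 0 < (C.L * Complex.normSq (ev d z C.S) + tv d z C.e0 C.E) := by
    have := Complex.normSq_nonneg (ev d z C.S)
    positivity
  constructor
  · have h5 : 0 ≤ (C.M : ℝ) * tv d z C.p0 C.P := by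
      rw [k4]
      have := Complex.normSq_nonneg (ev d z C.G)
      positivity
    exact nonneg_of_mul_nonneg_right h5 hMr'
  · intro h
    rw [h, mul_zero] at k4
    rcases mul_eq_zero.mp k4.symm with h7 | h7
    · exact Complex.normSq_eq_zero.mp h7
    · exact absurd h7 h6.ne'

end Pool.Agent.Q298.FC
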