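import Pool.Agent.Y315.FC.Orb

/-!
# Invariant measures: mixtures, orbits of rational points, sets of pairs of Fourier coefficients
-/

set_option autoImplicit false

namespace Pool.Agent.Q298.FC

open MeasureTheory Complex
open scoped ENNReal
open Pool.Agent.Y315.FC (co orb orb_prob orb_mp char_pow geom_zero int_c)

/-- invariant probability measures -/
structure Inv (p q : ℕ) (μ : Measure UnitAddCircle) : Prop where
  prob : IsProbabilityMeasure μ
  hp : MeasurePreserving (fun x : UnitAddCircle => p • x) μ μ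
  hq : MeasurePreserving (fun x : UnitAddCircle => q • x) μ μ

/-- the joint range of the real parts of two Fourier coefficients -/
def JR (p q m n : ℕ) : Set (ℝ × ℝ) :=
  {v | ∃ μ : Measure UnitAddCircle, Inv p q μ ∧ v = ((co μ m).re, (co μ n).re)}

theorem mix_mp {μ ν : Measure UnitAddCircle} {p : ℕ} (a b : ℝ≥0∞)
    (h1 : MeasurePreserving (fun x : UnitAddCircle => p • x) μ μ)
    (h2 : MeasurePreserving (fun x : UnitAddCircle => p • x) ν ν) :
    MeasurePreserving (fun x : UnitAddCircle => p • x) (a • μ + b • ν) (a • μ + b • ν) := by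
  refine ⟨h1.measurable, ?_⟩
  rw [Measure.map_add _ _ h1.measurable, Measure.map_smul, Measure.map_smul, h1.map_eq, h2.map_eq]

theorem mix_co {μ ν : Measure UnitAddCircle} [IsFiniteMeasure μ] [IsFiniteMeasure ν] {a b : ℝ}
    (ha : 0 ≤ a) (hb : 0 ≤ b) (n : ℕ) :
    co (ENNReal.ofReal a • μ + ENNReal.ofReal b • ν) n = a * co μ n + b * co ν n := by
  unfold co
  rw [integral_add_measure, integral_smul_measure, integral_smul_measure,
    ENNReal.toReal_ofReal ha, ENNReal.toReal_ofReal hb, Complex.real_smul, Complex.real_smul]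
  · exact (int_c (map_continuous _)).smul_measure ENNReal.ofReal_ne_top
  · exact (int_c (map_continuous _)).smul_measure ENNReal.ofReal_ne_top

theorem mix_inv {p q : ℕ} {μ ν : Measure UnitAddCircle} (hμ : Inv p q μ) (hν : Inv p q ν)
    {a b : ℝ} (ha : 0 ≤ a) (hb : 0 ≤ b) (hab : a + b = 1) :
    Inv p q (ENNReal.ofReal a • μ + ENNReal.ofReal b • ν) := by
  have := hμ.prob
  have := hν.prob
  refine ⟨⟨?_⟩, mix_mp _ _ hμ.hp hν.hp, mix_mp _ _ hμ.hq hν.hq⟩
  rw [Measure.add_apply, Measure.smul_apply, Measure.smul_apply, measure_univ, measure_univ,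
    smul_eq_mul, smul_eq_mul, mul_one, mul_one, ← ENNReal.ofReal_add ha hb, hab,
    ENNReal.ofReal_one]

theorem JR_convex (p q m n : ℕ) : Convex ℝ (JR p q m n) := by
  rintro _ ⟨μ, hμ, rfl⟩ _ ⟨ν, hν, rfl⟩ a b ha hb hab
  have := hμ.prob
  have := hν.prob
  refine ⟨_, mix_inv hμ hν ha hb hab, ?_⟩
  rw [mix_co ha hb, mix_co ha hb]
  simp

/-- mixtures in coordinates -/
theorem JR_mix {p q m n : ℕ} {x y x' y' : ℝ} (h : (x, y) ∈ JR p q m n)
    (h' : (x', y') ∈ JR p q m n) {t : ℝ} (h0 : 0 ≤ t) (h1 : t ≤ 1) {u v : ℝ}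
    (hu : u = (1 - t) * x + t * x') (hv : v = (1 - t) * y + t * y') : (u, v) ∈ JR p q m n := by
  have := JR_convex p q m n h h' (a := 1 - t) (b := t) (by linarith) h0 (by ring)
  have e : (1 - t) • ((x, y) : ℝ × ℝ) + t • ((x', y') : ℝ × ℝ) = (u, v) := by
    rw [hu, hv]; simp
  rwa [e] at this

theorem orb_four {N : ℕ} [NeZero N] {S : Finset (ZMod N)} {k : ℕ} {M : Multiset ℕ}
    (h : S.val.map (fun a : ZMod N => ((k : ZMod N) * a).val) = M) :
    co (orb S) k = (S.card : ℂ)⁻¹ *
      (M.map fun j => (ZMod.stdAddChar (1 : ZMod N) : ℂ) ^ j).sum := by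
  unfold co orb
  rw [integral_smul_measure, integral_finsetSum_measure]
  · simp only [integral_dirac]
    rw [ENNReal.toReal_inv, ENNReal.toReal_natCast, Complex.real_smul]
    push_cast
    congr 1
    rw [← h, Multiset.map_map]
    refine Finset.sum_congr rfl fun a _ => ?_
    simp only [Function.comp]
    rw [← char_pow, ZMod.natCast_zmod_val, ← nsmul_eq_mul, AddChar.map_nsmul_eq_pow,
      Pool.Agent.Y315.FC.four_pow]
    congr 1
    rw [fourier_one, ZMod.stdAddChar_apply]
    rfl
  · intro i _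
    exact int_c (map_continuous _)

end Pool.Agent.Q298.FC
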