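import Pool.Agent.Q298.FC.Cert23
import Pool.Agent.Q298.FC.Mix

/-!
# `×2`, `×3`: joint ranges of the real parts of the coefficients 1, 7 and 5, 7
-/

set_option autoImplicit false
set_option maxRecDepth 100000

namespace Pool.Agent.Q298.FC

open MeasureTheory Complex
open Pool.Agent.Y315.FC (co orb orb_prob orb_mp char_pow geom_zero int_c)

/-- `c_1 ≥ -1/4` -/
def e1 : Cert := ⟨0, 1, 5, 1, [(1, 0), (1, 0), (1, 0), (1, 0), (1, 0)], [(0, 0)], [],
  [(4, 0), (3, 0), (2, 0), (1, 0)]⟩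

/-- `c_5 ≥ -1/4` -/
def e5 : Cert := ⟨0, 1, 5, 1, [(1, 0), (0, 0), (0, 0), (0, 0), (0, 0), (1, 0), (0, 0), (0, 0),
  (0, 0), (0, 0), (1, 0), (0, 0), (0, 0), (0, 0), (0, 0), (1, 0), (0, 0), (0, 0), (0, 0), (0, 0),
  (1, 0)], [(0, 0)], [],
  [(0, 0), (0, 0), (0, 0), (0, 0), (4, 0), (0, 0), (0, 0), (0, 0), (0, 0), (3, 0), (0, 0), (0, 0),
  (0, 0), (0, 0), (2, 0), (0, 0), (0, 0), (0, 0), (0, 0), (1, 0)]⟩

/-- `c_7 ≥ -1/4` -/
def e7 : Cert := ⟨0, 1, 5, 1, [(1, 0), (0, 0), (0, 0), (0, 0), (0, 0), (0, 0), (0, 0), (1, 0),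
  (0, 0), (0, 0), (0, 0), (0, 0), (0, 0), (0, 0), (1, 0), (0, 0), (0, 0), (0, 0), (0, 0), (0, 0),
  (0, 0), (1, 0), (0, 0), (0, 0), (0, 0), (0, 0), (0, 0), (0, 0), (1, 0)], [(0, 0)], [],
  [(0, 0), (0, 0), (0, 0), (0, 0), (0, 0), (0, 0), (4, 0), (0, 0), (0, 0), (0, 0), (0, 0), (0, 0),
  (0, 0), (3, 0), (0, 0), (0, 0), (0, 0), (0, 0), (0, 0), (0, 0), (2, 0), (0, 0), (0, 0), (0, 0),
  (0, 0), (0, 0), (0, 0), (1, 0)]⟩

/-- `c_5 ≤ 1` -/
def u5 : Cert := ⟨0, 1, 2, 1, [(1, 0), (0, 0), (0, 0), (0, 0), (0, 0), (-1, 0)], [(0, 0)], [],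
  [(0, 0), (0, 0), (0, 0), (0, 0), (-1, 0)]⟩

/-- `c_7 ≤ 1` -/
def u7 : Cert := ⟨0, 1, 2, 1, [(1, 0), (0, 0), (0, 0), (0, 0), (0, 0), (0, 0), (0, 0), (-1, 0)],
  [(0, 0)], [], [(0, 0), (0, 0), (0, 0), (0, 0), (0, 0), (0, 0), (-1, 0)]⟩

theorem e5_ok : e5.ok 1 1 = true := by decide +kernel
theorem e7_ok : e7.ok 1 1 = true := by decide +kernel
theorem u5_ok : u5.ok 1 1 = true := by decide +kernel
theorem u7_ok : u7.ok 1 1 = true := by decide +kernel
theorem e5_chk : chk 2 3 e5.P 5 (10, 0) 1 (0, 0) 21 = true := by decide +kernel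
theorem e7_chk : chk 2 3 e7.P 7 (10, 0) 1 (0, 0) 29 = true := by decide +kernel
theorem u5_chk : chk 2 3 u5.P 5 (-1, 0) 1 (0, 0) 6 = true := by decide +kernel
theorem u7_chk : chk 2 3 u7.P 7 (-1, 0) 1 (0, 0) 8 = true := by decide +kernel

theorem ph_real (t : ℤ) (c : ℂ) : (ph 1 (t, 0) * c).re = t * c.re := by
  simp [ph]

/-- a certificate with rational coefficients -/
theorem use {C : Cert} {W i k : ℕ} {t s : ℤ} (hC : C.ok 1 1 = true) (hG : ∃ a ∈ C.G, a.1 ≠ 0)
    (hc : chk 2 3 C.P i (t, 0) k (s, 0) W = true) {μ : Measure UnitAddCircle} (h : Inv 2 3 μ) :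
    0 ≤ C.p0 + 2 * (t * (co μ i).re + s * (co μ k).re) ∧
      ((∀ x, μ {x} = 0) → 0 < C.p0 + 2 * (t * (co μ i).re + s * (co μ k).re)) := by
  have := h.prob
  have h1 := Cert.ineq hC hG hc μ h.hp h.hq
  rwa [Complex.add_re, ph_real, ph_real] at h1

section
variable {μ : Measure UnitAddCircle} (h : Inv 2 3 μ)
include h

theorem ineqA : 30 * (co μ 1).re - 23 * (co μ 7).re ≤ 7 ∧
    ((∀ x, μ {x} = 0) → 30 * (co μ 1).re - 23 * (co μ 7).re < 7) := by
  obtain ⟨h1, h2⟩ := use cA_ok ⟨_, List.mem_cons_self, by decide⟩ cA_chk h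
  have e : (cA.p0 : ℝ) = 1155948387838807857343769114846681676185600000000 := by
    norm_num [cA]
  rw [e] at h1 h2
  push_cast at h1 h2
  exact ⟨by linarith, fun ha => by have := h2 ha; linarith⟩

theorem ineqB : (co μ 7).re - 15 * (co μ 1).re ≤ 7 / 2 ∧
    ((∀ x, μ {x} = 0) → (co μ 7).re - 15 * (co μ 1).re < 7 / 2) := by
  obtain ⟨h1, h2⟩ := use cB_ok ⟨_, List.mem_cons_self, by decide⟩ cB_chk h
  have e : (cB.p0 : ℝ) = 24500000 := by norm_num [cB]
  rw [e] at h1 h2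
  push_cast at h1 h2
  exact ⟨by linarith, fun ha => by have := h2 ha; linarith⟩

theorem ineqC : -(3 / 4) ≤ (co μ 7).re + 3 * (co μ 5).re ∧
    ((∀ x, μ {x} = 0) → -(3 / 4) < (co μ 7).re + 3 * (co μ 5).re) := by
  obtain ⟨h1, h2⟩ := use cC_ok ⟨_, List.mem_cons_self, by decide⟩ cC_chk h
  have e : (cC.p0 : ℝ) = 20124484317000000000 := by norm_num [cC]
  rw [e] at h1 h2
  push_cast at h1 h2
  exact ⟨by linarith, fun ha => by have := h2 ha; linarith⟩

theorem ineqD : -3 ≤ 12 * (co μ 5).re - (co μ 7).re ∧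
    ((∀ x, μ {x} = 0) → -3 < 12 * (co μ 5).re - (co μ 7).re) := by
  obtain ⟨h1, h2⟩ := use cD_ok ⟨_, List.mem_cons_self, by decide⟩ cD_chk h
  have e : (cD.p0 : ℝ) = 1675800000000 := by norm_num [cD]
  rw [e] at h1 h2
  push_cast at h1 h2
  exact ⟨by linarith, fun ha => by have := h2 ha; linarith⟩

theorem low5 : -(1 / 4) ≤ (co μ 5).re ∧ ((∀ x, μ {x} = 0) → -(1 / 4) < (co μ 5).re) := by
  obtain ⟨h1, h2⟩ := use e5_ok ⟨_, List.mem_cons_self, by decide⟩ e5_chk h
  have e : (e5.p0 : ℝ) = 5 := by norm_num [e5]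
  rw [e] at h1 h2
  push_cast at h1 h2
  exact ⟨by linarith, fun ha => by have := h2 ha; linarith⟩

theorem low7 : -(1 / 4) ≤ (co μ 7).re ∧ ((∀ x, μ {x} = 0) → -(1 / 4) < (co μ 7).re) := by
  obtain ⟨h1, h2⟩ := use e7_ok ⟨_, List.mem_cons_self, by decide⟩ e7_chk h
  have e : (e7.p0 : ℝ) = 5 := by norm_num [e7]
  rw [e] at h1 h2
  push_cast at h1 h2
  exact ⟨by linarith, fun ha => by have := h2 ha; linarith⟩

theorem up5 : (co μ 5).re ≤ 1 ∧ ((∀ x, μ {x} = 0) → (co μ 5).re < 1) := by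
  obtain ⟨h1, h2⟩ := use u5_ok ⟨_, List.mem_cons_self, by decide⟩ u5_chk h
  have e : (u5.p0 : ℝ) = 2 := by norm_num [u5]
  rw [e] at h1 h2
  push_cast at h1 h2
  exact ⟨by linarith, fun ha => by have := h2 ha; linarith⟩

theorem up7 : (co μ 7).re ≤ 1 ∧ ((∀ x, μ {x} = 0) → (co μ 7).re < 1) := by
  obtain ⟨h1, h2⟩ := use u7_ok ⟨_, List.mem_cons_self, by decide⟩ u7_chk h
  have e : (u7.p0 : ℝ) = 2 := by norm_num [u7]
  rw [e] at h1 h2
  push_cast at h1 h2
  exact ⟨by linarith, fun ha => by have := h2 ha; linarith⟩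

end

/-! ### The vertices -/

/-- sums over subgroups of the roots of unity -/
theorem pow_geom {N : ℕ} [NeZero N] (d e : ℕ) (h : N = d * e) (hd : (d : ZMod N) ≠ 0) :
    ∑ j ∈ Finset.range e, ((ZMod.stdAddChar (1 : ZMod N) : ℂ) ^ d) ^ j = 0 := by
  set ζ : ℂ := ZMod.stdAddChar (1 : ZMod N) with hζ
  have h1 : (ζ ^ d) ^ e = 1 := by
    rw [← pow_mul, ← h, hζ, ← char_pow]
    simp
  have h2 : ζ ^ d ≠ 1 := by
    intro h0
    rw [hζ, ← char_pow] at h0
    have h3 : (ZMod.stdAddChar (d : ZMod N) : ℂ) = ZMod.stdAddChar (0 : ZMod N) := by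
      rw [AddChar.map_zero_eq_one]; exact h0
    exact hd (ZMod.injective_stdAddChar h3)
  have h5 := mul_neg_geom_sum (ζ ^ d) e
  rw [h1, sub_self] at h5
  rcases mul_eq_zero.mp h5 with h | h
  · exact absurd (sub_eq_zero.mp h).symm h2
  · exact h

/-- the units modulo `N` -/
def uni (N : ℕ) [NeZero N] : Finset (ZMod N) :=
  (Finset.univ : Finset (ZMod N)).filter fun a => Nat.Coprime a.val N

theorem inv5 : Inv 2 3 (orb (uni 5)) :=
  ⟨orb_prob ⟨1, by decide⟩, orb_mp 2 (by decide), orb_mp 3 (by decide)⟩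
theorem inv7 : Inv 2 3 (orb (uni 7)) :=
  ⟨orb_prob ⟨1, by decide⟩, orb_mp 2 (by decide), orb_mp 3 (by decide)⟩
theorem inv25 : Inv 2 3 (orb (uni 25)) :=
  ⟨orb_prob ⟨1, by decide⟩, orb_mp 2 (by decide +kernel), orb_mp 3 (by decide +kernel)⟩
theorem inv35 : Inv 2 3 (orb (uni 35)) :=
  ⟨orb_prob ⟨1, by decide⟩, orb_mp 2 (by decide +kernel), orb_mp 3 (by decide +kernel)⟩

theorem c5_1 : (co (orb (uni 5)) 1).re = -(1 / 4) := by
  rw [orb_four (M := ([1, 2, 3, 4] : List ℕ)) (by decide)]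
  have h1 := pow_geom (N := 5) 1 5 rfl (by decide)
  have e : (uni 5).card = 4 := by decide
  simp only [Finset.sum_range_succ, Finset.sum_range_zero] at h1
  rw [e]
  have h : ((([1, 2, 3, 4] : List ℕ) : Multiset ℕ).map fun j =>
      (ZMod.stdAddChar (1 : ZMod 5) : ℂ) ^ j).sum = -1 := by
    simp only [Multiset.map_coe, Multiset.sum_coe, List.map_cons, List.map_nil, List.sum_cons,
      List.sum_nil]
    linear_combination h1
  rw [h]
  norm_num

theorem c5_5 : (co (orb (uni 5)) 5).re = 1 := by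
  rw [orb_four (M := ([0, 0, 0, 0] : List ℕ)) (by decide)]
  have e : (uni 5).card = 4 := by decide
  rw [e]
  have h : ((([0, 0, 0, 0] : List ℕ) : Multiset ℕ).map fun j =>
      (ZMod.stdAddChar (1 : ZMod 5) : ℂ) ^ j).sum = 4 := by
    simp only [Multiset.map_coe, Multiset.sum_coe, List.map_cons, List.map_nil, List.sum_cons,
      List.sum_nil]
    ring
  rw [h]
  norm_num

theorem c5_7 : (co (orb (uni 5)) 7).re = -(1 / 4) := by
  rw [orb_four (M := ([2, 4, 1, 3] : List ℕ)) (by decide)]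
  have h1 := pow_geom (N := 5) 1 5 rfl (by decide)
  have e : (uni 5).card = 4 := by decide
  simp only [Finset.sum_range_succ, Finset.sum_range_zero] at h1
  rw [e]
  have h : ((([2, 4, 1, 3] : List ℕ) : Multiset ℕ).map fun j =>
      (ZMod.stdAddChar (1 : ZMod 5) : ℂ) ^ j).sum = -1 := by
    simp only [Multiset.map_coe, Multiset.sum_coe, List.map_cons, List.map_nil, List.sum_cons,
      List.sum_nil]
    linear_combination h1
  rw [h]
  norm_num

theorem c7_1 : (co (orb (uni 7)) 1).re = -(1 / 6) := by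
  rw [orb_four (M := ([1, 2, 3, 4, 5, 6] : List ℕ)) (by decide)]
  have h1 := pow_geom (N := 7) 1 7 rfl (by decide)
  have e : (uni 7).card = 6 := by decide
  simp only [Finset.sum_range_succ, Finset.sum_range_zero] at h1
  rw [e]
  have h : ((([1, 2, 3, 4, 5, 6] : List ℕ) : Multiset ℕ).map fun j =>
      (ZMod.stdAddChar (1 : ZMod 7) : ℂ) ^ j).sum = -1 := by
    simp only [Multiset.map_coe, Multiset.sum_coe, List.map_cons, List.map_nil, List.sum_cons,
      List.sum_nil]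
    linear_combination h1
  rw [h]
  norm_num

theorem c7_5 : (co (orb (uni 7)) 5).re = -(1 / 6) := by
  rw [orb_four (M := ([5, 3, 1, 6, 4, 2] : List ℕ)) (by decide)]
  have h1 := pow_geom (N := 7) 1 7 rfl (by decide)
  have e : (uni 7).card = 6 := by decide
  simp only [Finset.sum_range_succ, Finset.sum_range_zero] at h1
  rw [e]
  have h : ((([5, 3, 1, 6, 4, 2] : List ℕ) : Multiset ℕ).map fun j =>
      (ZMod.stdAddChar (1 : ZMod 7) : ℂ) ^ j).sum = -1 := by
    simp only [Multiset.map_coe, Multiset.sum_coe, List.map_cons, List.map_nil, List.sum_cons,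
      List.sum_nil]
    linear_combination h1
  rw [h]
  norm_num

theorem c7_7 : (co (orb (uni 7)) 7).re = 1 := by
  rw [orb_four (M := ([0, 0, 0, 0, 0, 0] : List ℕ)) (by decide)]
  have e : (uni 7).card = 6 := by decide
  rw [e]
  have h : ((([0, 0, 0, 0, 0, 0] : List ℕ) : Multiset ℕ).map fun j =>
      (ZMod.stdAddChar (1 : ZMod 7) : ℂ) ^ j).sum = 6 := by
    simp only [Multiset.map_coe, Multiset.sum_coe, List.map_cons, List.map_nil, List.sum_cons,
      List.sum_nil]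
    ring
  rw [h]
  norm_num

theorem c25_5 : (co (orb (uni 25)) 5).re = -(1 / 4) := by
  rw [orb_four (M := ([5, 10, 15, 20, 5, 10, 15, 20, 5, 10, 15, 20, 5, 10, 15, 20, 5, 10, 15,
      20] : List ℕ)) (by decide +kernel)]
  have h1 := pow_geom (N := 25) 5 5 rfl (by decide)
  have e : (uni 25).card = 20 := by decide +kernel
  simp only [Finset.sum_range_succ, Finset.sum_range_zero] at h1
  rw [e]
  have h : ((([5, 10, 15, 20, 5, 10, 15, 20, 5, 10, 15, 20, 5, 10, 15, 20, 5, 10, 15,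
      20] : List ℕ) : Multiset ℕ).map fun j =>
      (ZMod.stdAddChar (1 : ZMod 25) : ℂ) ^ j).sum = -5 := by
    simp only [Multiset.map_coe, Multiset.sum_coe, List.map_cons, List.map_nil, List.sum_cons,
      List.sum_nil]
    linear_combination 5 * h1
  rw [h]
  norm_num

theorem c25_7 : (co (orb (uni 25)) 7).re = 0 := by
  rw [orb_four (M := ([7, 14, 21, 3, 17, 24, 6, 13, 2, 9, 16, 23, 12, 19, 1, 8, 22, 4, 11,
      18] : List ℕ)) (by decide +kernel)]
  have h1 := pow_geom (N := 25) 1 25 rfl (by decide)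
  have h2 := pow_geom (N := 25) 5 5 rfl (by decide)
  have e : (uni 25).card = 20 := by decide +kernel
  simp only [Finset.sum_range_succ, Finset.sum_range_zero] at h1 h2
  rw [e]
  have h : ((([7, 14, 21, 3, 17, 24, 6, 13, 2, 9, 16, 23, 12, 19, 1, 8, 22, 4, 11,
      18] : List ℕ) : Multiset ℕ).map fun j =>
      (ZMod.stdAddChar (1 : ZMod 25) : ℂ) ^ j).sum = 0 := by
    simp only [Multiset.map_coe, Multiset.sum_coe, List.map_cons, List.map_nil, List.sum_cons,
      List.sum_nil]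
    linear_combination h1 - h2
  rw [h]
  norm_num

theorem c35_1 : (co (orb (uni 35)) 1).re = 1 / 24 := by
  rw [orb_four (M := ([1, 2, 3, 4, 6, 8, 9, 11, 12, 13, 16, 17, 18, 19, 22, 23, 24, 26, 27, 29,
      31, 32, 33, 34] : List ℕ)) (by decide +kernel)]
  have h1 := pow_geom (N := 35) 1 35 rfl (by decide)
  have h2 := pow_geom (N := 35) 5 7 rfl (by decide)
  have h3 := pow_geom (N := 35) 7 5 rfl (by decide)
  have e : (uni 35).card = 24 := by decide +kernel
  simp only [Finset.sum_range_succ, Finset.sum_range_zero] at h1 h2 h3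
  rw [e]
  have h : ((([1, 2, 3, 4, 6, 8, 9, 11, 12, 13, 16, 17, 18, 19, 22, 23, 24, 26, 27, 29, 31, 32,
      33, 34] : List ℕ) : Multiset ℕ).map fun j =>
      (ZMod.stdAddChar (1 : ZMod 35) : ℂ) ^ j).sum = 1 := by
    simp only [Multiset.map_coe, Multiset.sum_coe, List.map_cons, List.map_nil, List.sum_cons,
      List.sum_nil]
    linear_combination h1 - h2 - h3
  rw [h]
  norm_num

theorem c35_5 : (co (orb (uni 35)) 5).re = -(1 / 6) := by
  rw [orb_four (M := ([5, 10, 15, 20, 30, 5, 10, 20, 25, 30, 10, 15, 20, 25, 5, 10, 15, 25, 30,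
      5, 15, 20, 25, 30] : List ℕ)) (by decide +kernel)]
  have h1 := pow_geom (N := 35) 5 7 rfl (by decide)
  have e : (uni 35).card = 24 := by decide +kernel
  simp only [Finset.sum_range_succ, Finset.sum_range_zero] at h1
  rw [e]
  have h : ((([5, 10, 15, 20, 30, 5, 10, 20, 25, 30, 10, 15, 20, 25, 5, 10, 15, 25, 30, 5, 15,
      20, 25, 30] : List ℕ) : Multiset ℕ).map fun j =>
      (ZMod.stdAddChar (1 : ZMod 35) : ℂ) ^ j).sum = -4 := by
    simp only [Multiset.map_coe, Multiset.sum_coe, List.map_cons, List.map_nil, List.sum_cons,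
      List.sum_nil]
    linear_combination 4 * h1
  rw [h]
  norm_num

theorem c35_7 : (co (orb (uni 35)) 7).re = -(1 / 4) := by
  rw [orb_four (M := ([7, 14, 21, 28, 7, 21, 28, 7, 14, 21, 7, 14, 21, 28, 14, 21, 28, 7, 14, 28,
      7, 14, 21, 28] : List ℕ)) (by decide +kernel)]
  have h1 := pow_geom (N := 35) 7 5 rfl (by decide)
  have e : (uni 35).card = 24 := by decide +kernel
  simp only [Finset.sum_range_succ, Finset.sum_range_zero] at h1
  rw [e]
  have h : ((([7, 14, 21, 28, 7, 21, 28, 7, 14, 21, 7, 14, 21, 28, 14, 21, 28, 7, 14, 28, 7, 14,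
      21, 28] : List ℕ) : Multiset ℕ).map fun j =>
      (ZMod.stdAddChar (1 : ZMod 35) : ℂ) ^ j).sum = -6 := by
    simp only [Multiset.map_coe, Multiset.sum_coe, List.map_cons, List.map_nil, List.sum_cons,
      List.sum_nil]
    linear_combination 6 * h1
  rw [h]
  norm_num

/-- the fixed point -/
theorem one_mem (m n : ℕ) : ((1 : ℝ), (1 : ℝ)) ∈ JR 2 3 m n := by
  refine ⟨Measure.dirac 0, ⟨inferInstance, ?_, ?_⟩, ?_⟩
  · have hm : Measurable (fun x : UnitAddCircle => 2 • x) := (continuous_nsmul 2).measurable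
    exact ⟨hm, by rw [Measure.map_dirac' hm]; simp⟩
  · have hm : Measurable (fun x : UnitAddCircle => 3 • x) := (continuous_nsmul 3).measurable
    exact ⟨hm, by rw [Measure.map_dirac' hm]; simp⟩
  · have h : ∀ k : ℕ, co (Measure.dirac (0 : UnitAddCircle)) k = 1 := by
      intro k
      unfold co
      rw [integral_dirac]
      simp [fourier_apply]
    rw [h, h]
    simp

end Pool.Agent.Q298.FC
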